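import Mathlib

set_option autoImplicit false
set_option linter.unusedSimpArgs false
set_option linter.unusedVariables false

/-! Leftmost derivations, short witnesses for linear conditions, and a replacement lemma. -/

namespace Pool.Agent.H.MP_067fd8_lc

open List Symbol

variable {T N : Type}

inductive LD (P : Set (ContextFreeRule T N)) : List (Symbol T N) → List (ContextFreeRule T N) → List T → Prop
  | nil : LD P [] [] []
  | ter (a) {α μ w} : LD P α μ w → LD P (terminal a :: α) μ (a :: w)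
  | nt {r α μ w} : r ∈ P → LD P (r.output ++ α) μ w → LD P (nonterminal r.input :: α) (r :: μ) w

variable {P : Set (ContextFreeRule T N)}

theorem LD.app {α μ w β ν v} (h : LD P α μ w) (h' : LD P β ν v) : LD P (α ++ β) (μ ++ ν) (w ++ v) := by
  induction h with
  | nil => exact h'
  | ter a _ ih => exact .ter a ih
  | nt a _ ih => exact .nt a (append_assoc .. ▸ ih)

theorem LD.split {γ μ w} (h : LD P γ μ w) : ∀ α β, γ = α ++ β → ∃ μ₁ μ₂ w₁ w₂, μ = μ₁ ++ μ₂ ∧ w = w₁ ++ w₂ ∧
    LD P α μ₁ w₁ ∧ LD P β μ₂ w₂ := by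
  induction h with
  | nil => rintro (_ | _) _ ⟨⟩; exact ⟨[], [], [], [], rfl, rfl, .nil, .nil⟩
  | ter a h ih =>
    rintro (_ | ⟨_, α⟩) β ⟨⟩
    · exact ⟨[], _, [], _, rfl, rfl, .nil, .ter a h⟩
    obtain ⟨_, _, _, _, rfl, rfl, b, c⟩ := ih α β rfl
    exact ⟨_, _, _, _, rfl, rfl, .ter a b, c⟩
  | nt a h ih =>
    rintro (_ | ⟨_, α⟩) β ⟨⟩
    · exact ⟨[], _, [], _, rfl, rfl, .nil, .nt a h⟩
    obtain ⟨_, _, _, _, rfl, rfl, b, c⟩ := ih _ β (append_assoc ..).symm
    exact ⟨_, _, _, _, rfl, rfl, .nt a b, c⟩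

theorem ld_nt {X α μ w} : LD P (nonterminal X :: α) μ w ↔
    ∃ r ∈ P, r.input = X ∧ ∃ μ', μ = r :: μ' ∧ LD P (r.output ++ α) μ' w :=
  ⟨fun h => by cases h; exact ⟨_, ‹_›, rfl, _, rfl, ‹_›⟩, by rintro ⟨r, a, rfl, _, rfl, b⟩; exact .nt a b⟩

theorem ld_ters {x : List T} {α μ} : ∀ {w}, LD P (x.map terminal ++ α) μ w ↔ ∃ v, w = x ++ v ∧ LD P α μ v := by
  induction x with
  | nil => simp
  | cons a x ih => exact ⟨fun h => by
      cases h with | ter _ h => obtain ⟨v, rfl, b⟩ := ih.1 h; exact ⟨v, rfl, b⟩, by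
      rintro ⟨v, rfl, b⟩; exact .ter a (ih.2 ⟨v, rfl, b⟩)⟩

theorem LD.det {α μ w} (h : LD P α μ w) : ∀ {μ' w' ν ν'}, LD P α μ' w' → μ ++ ν = μ' ++ ν' → μ = μ' ∧ w = w' := by
  induction h with
  | nil => rintro _ _ _ _ ⟨⟩ -; exact ⟨rfl, rfl⟩
  | ter a _ ih => rintro _ _ _ _ (_ | ⟨_, h⟩) e; exact (ih h e).imp_right (congrArg _)
  | nt _ _ ih =>
    intro _ _ _ _ h e
    obtain ⟨_, -, -, _, rfl, h'⟩ := ld_nt.1 h
    obtain ⟨rfl, e'⟩ := cons.inj e
    exact (ih h' e').imp_left (congrArg _)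

theorem short {E : Type} [Ring E] [Algebra ℚ E] [Module.Finite ℚ E] (hE : Module.finrank ℚ E ≤ 16)
    {F : Set N} (hF : F.Finite) (hP : ∀ r ∈ P, r.input ∈ F) {n l : ℕ} (hn : F.ncard ≤ n) (hl : 1 ≤ l)
    (hl' : ∀ r ∈ P, r.output.length ≤ l) (σ : ContextFreeRule T N → E) (hσ : ∀ r e, Commute (σ r) e)
    (ρ : T → E) (φ : E →ₗ[ℚ] ℚ) {S μ w} (h : LD P [nonterminal S] μ w)
    (h0 : φ ((μ.map σ).prod * (w.map ρ).prod) ≠ 0) : ∃ μ w, LD P [nonterminal S] μ w ∧
      w.length ≤ l ^ (16 * n) ∧ φ ((μ.map σ).prod * (w.map ρ).prod) ≠ 0 := by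
  let G := fun (V : N → Submodule ℚ E) (α : List (Symbol T N)) =>
    (α.map fun x => match x with | terminal a => Submodule.span ℚ {ρ a} | nonterminal A => V A).prod
  let Φ := fun (V : N → Submodule ℚ E) A => ⨆ r ∈ {r ∈ P | r.input = A}, Submodule.span ℚ {σ r} * G V r.output
  have m : Monotone Φ := fun V W e A => iSup₂_mono fun r a => mul_le_mul' le_rfl
    (prod_le_prod' fun x _ => by cases x; exacts [le_rfl, e _])
  let U := fun α k => Submodule.span ℚ {e | ∃ μ w, LD P α μ w ∧ w.length ≤ k ∧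
    e = (μ.map σ).prod * (w.map ρ).prod}
  have c : ∀ (μ : List _) e, Commute (μ.map σ).prod e := fun μ e =>
    .list_prod_left _ _ (forall_mem_map.2 fun r _ => hσ r e)
  have k1 : ∀ t A, Φ^[t] ⊥ A ≤ U [nonterminal A] (l ^ t) := fun t => by
    induction t with
    | zero => exact fun _ => bot_le
    | succ t ih =>
      have k : ∀ α, G (Φ^[t] ⊥) α ≤ U α (α.length * l ^ t) := fun α => by
        induction α with
        | nil => exact Submodule.one_le.2 (Submodule.subset_span ⟨[], [], .nil, by simp, by simp⟩)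
        | cons x α ih' =>
          refine (mul_le_mul' (?_ : _ ≤ U [x] (l ^ t)) ih').trans ((Submodule.span_mul_span ..).trans_le
            (Submodule.span_mono ?_))
          · obtain a | A := x
            exacts [Submodule.span_mono (Set.singleton_subset_iff.2 ⟨[], [a], .ter a .nil,
              Nat.one_le_pow _ _ hl, by simp⟩), ih A]
          rintro _ ⟨_, ⟨μ, w, a, b, rfl⟩, _, ⟨ν, v, a', b', rfl⟩, rfl⟩
          exact ⟨_, _, a.app a', by rw [length_append, length_cons, add_mul]; omega, by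
            simp only [map_append, prod_append, mul_assoc]; rw [(c ν _).left_comm]⟩
      intro A
      rw [Function.iterate_succ_apply']
      refine iSup₂_le fun r a => (mul_le_mul' le_rfl (k _)).trans ((Submodule.span_mul_span ..).trans_le
        (Submodule.span_mono ?_))
      rintro _ ⟨_, rfl, _, ⟨μ, w, b, d, rfl⟩, rfl⟩
      exact ⟨r :: μ, w, a.2 ▸ .nt a.1 (by rwa [append_nil]), d.trans (by
        rw [pow_succ']; exact Nat.mul_le_mul_right _ (hl' r a.1)), by simp [mul_assoc]⟩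
  have := hF.to_subtype
  have k2 : Φ (Φ^[16 * n] ⊥) = Φ^[16 * n] ⊥ := by
    have := Fintype.ofFinite F
    let W := fun V : N → Submodule ℚ E => Submodule.pi Set.univ fun A : F => V A
    have z : ∀ t A, A ∉ F → Φ^[t] ⊥ A = ⊥ := fun t A a => by
      cases t; · rfl
      rw [Function.iterate_succ_apply']
      exact eq_bot_iff.2 (iSup₂_le fun r b => (a (b.2 ▸ hP r b.1)).elim)
    have mo : ∀ t, Φ^[t] ⊥ ≤ Φ^[t + 1] ⊥ := fun t => m.iterate t bot_le
    have k : ∀ t, Φ (Φ^[t] ⊥) ≠ Φ^[t] ⊥ → Module.finrank ℚ (W (Φ^[t] ⊥)) <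
        Module.finrank ℚ (W (Φ^[t + 1] ⊥)) := fun t e => Submodule.finrank_lt_finrank_of_lt
      (lt_of_le_of_ne (Submodule.pi_mono fun A _ => mo t A) fun q => e (funext fun A => by
        rw [← Function.iterate_succ_apply' Φ]
        by_cases a : A ∈ F
        · refine le_antisymm (fun x b => ?_) (mo t A)
          classical
          have := (q.ge (show Pi.single (⟨A, a⟩ : F) x ∈ W _ from fun B _ => by
            by_cases e : B = ⟨A, a⟩
            · rw [e, Pi.single_eq_same]; exact b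
            · rw [Pi.single_eq_of_ne e]; exact zero_mem _)) ⟨A, a⟩ trivial
          rwa [Pi.single_eq_same] at this
        · rw [z _ _ a, z _ _ a]))
    have : ∀ t, Φ (Φ^[t] ⊥) ≠ Φ^[t] ⊥ → t + 1 ≤ Module.finrank ℚ (W (Φ^[t + 1] ⊥)) := fun t e => by
      induction t with
      | zero => exact Nat.zero_lt_of_lt (k 0 e)
      | succ t ih =>
        have := ih fun q => e (by rw [Function.iterate_succ_apply', q, q])
        have := k _ e
        omega
    by_contra e
    have := (this _ e).trans (Submodule.finrank_le _)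
    rw [Module.finrank_pi_fintype, Finset.sum_const, Finset.card_univ, ← Nat.card_eq_fintype_card,
      Nat.card_coe_set_eq, smul_eq_mul] at this
    nlinarith
  have k3 : ∀ α μ w, LD P α μ w → (μ.map σ).prod * (w.map ρ).prod ∈ G (Φ^[16 * n] ⊥) α := fun _ _ _ h => by
    induction h with
    | nil => exact Submodule.mem_one.2 ⟨1, by simp⟩
    | ter a _ ih =>
      rw [map_cons, prod_cons, (c _ _).left_comm]
      exact Submodule.mul_mem_mul (Submodule.mem_span_singleton_self _) ih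
    | @nt r α _ _ a _ ih =>
      have : Submodule.span ℚ {σ r} * G (Φ^[16 * n] ⊥) (r.output ++ α) ≤
          G (Φ^[16 * n] ⊥) (nonterminal r.input :: α) := by
        simp only [G, map_append, prod_append, map_cons, prod_cons, ← mul_assoc]
        exact mul_le_mul' ((le_biSup (fun r => Submodule.span ℚ {σ r} * G (Φ^[16 * n] ⊥) r.output)
          (show r ∈ {r' ∈ P | r'.input = r.input} from ⟨a, rfl⟩)).trans (congrFun k2 _).le) le_rfl
      rw [map_cons, prod_cons, mul_assoc]
      exact this (Submodule.mul_mem_mul (Submodule.mem_span_singleton_self _) ih)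
  by_contra! q
  refine h0 ((Submodule.span_le (p := LinearMap.ker φ)).2 ?_ (k1 _ S (by simpa [G] using k3 _ _ _ h)))
  rintro _ ⟨μ, w, a, b, rfl⟩
  exact q μ w a b

end Pool.Agent.H.MP_067fd8_lc
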