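import Pool.Agent.H.MP_067fd8_lc.A

set_option autoImplicit false
set_option linter.unusedSimpArgs false
set_option linter.unusedVariables false

/-! Grammars whose words have one marker: replacing index suffixes keeps two derivations. -/

namespace Pool.Agent.H.MP_067fd8_lc

open List Symbol

theorem cardL (B : Type) [Finite B] (H : ℕ) : Finite {l : List B // l.length ≤ H} ∧
    Nat.card {l : List B // l.length ≤ H} ≤ (Nat.card B + 1) ^ H := by
  refine ⟨(finite_length_le B H).to_subtype, (Nat.card_le_card_of_injective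
    (fun l (i : Fin H) => l.1[i.val]?) fun l l' e => Subtype.ext (ext_getElem? fun i => ?_)).trans_eq
    (by simp [Nat.card_fun, Finite.card_option])⟩
  by_cases a : i < H
  · exact congrFun e ⟨i, a⟩
  · rw [getElem?_eq_none (by have := l.2; omega), getElem?_eq_none (by have := l'.2; omega)]

theorem LD.ctx {T N : Type} {P : Set (ContextFreeRule T N)} {α μ w} (h : LD P α μ w) {r} (hr : r ∈ μ) :
    ∃ x y, y.length ≤ w.length ∧ ∀ ν t, LD P [nonterminal r.input] ν t → ∃ μ', LD P α μ' (x ++ t ++ y) := by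
  induction h with
  | nil => cases hr
  | ter a _ ih =>
    obtain ⟨x, y, b, c⟩ := ih hr
    exact ⟨a :: x, y, b.trans (Nat.le_succ _), fun ν t d => (c ν t d).imp fun _ => .ter a⟩
  | nt a h ih =>
    obtain rfl | hr := mem_cons.1 hr
    · obtain ⟨_, _, _, y, -, rfl, -, c⟩ := h.split _ _ rfl
      exact ⟨[], y, by simp, fun ν t d => ⟨_, d.app c⟩⟩
    · obtain ⟨x, y, b, c⟩ := ih hr
      exact ⟨x, y, b, fun ν t d => (c ν t d).elim fun _ e => ⟨_, .nt a e⟩⟩

theorem LD.mid {T N : Type} {P : Set (ContextFreeRule T N)} {a : T} : ∀ {γ μ w}, LD P γ μ w → a ∈ w →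
    ∃ α X β ν κ ι t m t', γ = α ++ X :: β ∧ μ = ν ++ κ ++ ι ∧ w = t ++ m ++ t' ∧ a ∉ t ∧ a ∈ m ∧
      LD P α ν t ∧ LD P [X] κ m ∧ LD P β ι t'
  | [], _, _, h, b => by cases h; cases b
  | X :: γ, _, _, h, b => by
    obtain ⟨κ, ι, m, t', rfl, rfl, c, d⟩ := h.split [X] γ rfl
    by_cases e : a ∈ m
    · exact ⟨[], X, γ, [], κ, ι, [], m, t', rfl, rfl, rfl, nofun, e, .nil, c, d⟩
    obtain ⟨α, Y, β, ν, κ', ι, t, m', t', rfl, rfl, rfl, f1, f2, f3, f4, f5⟩ :=
      d.mid ((mem_append.1 b).resolve_left e)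
    exact ⟨X :: α, Y, β, κ ++ ν, κ', ι, m ++ t, m', t', rfl, by simp, by simp, by simp [e, f1], f2,
      c.app f3, f4, f5⟩

theorem uniq {T N : Type} {P : Set (ContextFreeRule T N)} {a : T} {α X β ν κ ι t m α' X' β' ν' κ' ι' t' m'}
    (h1 : LD P α ν t) (h2 : LD P [X] κ m) (h3 : a ∉ t) (h4 : a ∈ m)
    (h1' : LD P α' ν' t') (h2' : LD P [X'] κ' m') (h3' : a ∉ t') (h4' : a ∈ m')
    (e : α ++ X :: β = α' ++ X' :: β') (e' : ν ++ κ ++ ι = ν' ++ κ' ++ ι') :
    α = α' ∧ ν = ν' ∧ κ = κ' ∧ ι = ι' := by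
  have k : ∀ {α X ν κ ι t m c ν' ι' t'}, LD P α ν t → LD P [X] κ m → a ∈ m → LD P (α ++ X :: c) ν' t' →
      ν ++ κ ++ ι = ν' ++ ι' → a ∈ t' := fun h1 h2 h4 h1' e => by
    obtain ⟨_, _, _, _, rfl, rfl, b, -⟩ := h1'.split (_ ++ [_]) _ (append_cons ..)
    rw [← ((h1.app h2).det b (e.trans (append_assoc ..))).2]
    simp [h4]
  obtain ⟨_ | ⟨_, c⟩, rfl, ⟨⟩⟩ | ⟨_ | ⟨_, c⟩, rfl, ⟨⟩⟩ := append_eq_append_iff.1 e
  · rw [append_nil] at h1' ⊢
    obtain ⟨rfl, -⟩ := h1.det h1' (by simpa using e')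
    obtain ⟨rfl, -⟩ := h2.det h2' (by simpa using e')
    exact ⟨rfl, rfl, rfl, by simpa using e'⟩
  · exact (h3' (k h1 h2 h4 h1' (e'.trans (append_assoc ..)))).elim
  · rw [append_nil] at h1 ⊢
    obtain ⟨rfl, -⟩ := h1.det h1' (by simpa using e')
    obtain ⟨rfl, -⟩ := h2.det h2' (by simpa using e')
    exact ⟨rfl, rfl, rfl, by simpa using e'⟩
  · exact (h3 (k h1' h2' h4' h1 (e'.symm.trans (append_assoc ..)))).elim

variable {I Z N : Type}

def wd (s : List I) (z : List Z) : List (Option (I ⊕ Z)) :=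
  s.map (fun i => some (.inl i)) ++ none :: z.map fun y => some (.inr y)

def ix (w : List (Option (I ⊕ Z))) : List I := w.filterMap fun x => x.bind Sum.getLeft?

theorem ix_app (x y : List (Option (I ⊕ Z))) : ix (x ++ y) = ix x ++ ix y := filterMap_append

theorem ix_wd (s : List I) (z : List Z) : ix (wd s z) = s := by simp [ix, wd, filterMap_map]

theorem cut {x y} {s : List I} {z : List Z} (h : x ++ y = wd s z) :
    (none ∉ x ∧ x.length ≤ s.length ∧ z.length ≤ y.length) ∨ (none ∈ x ∧ ix y = []) := by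
  obtain ⟨c, a, rfl⟩ | ⟨_ | ⟨_, c⟩, rfl, a⟩ := append_eq_append_iff.1 h
  · refine .inl ⟨fun b => ?_, by simpa using (congrArg length a).ge.trans' (by simp), by simp; omega⟩
    have := mem_append_left c b
    simp [← a] at this
  · exact .inl ⟨by simp, by simp, by simpa using (congrArg length a).le.trans' (by simp)⟩
  · obtain ⟨rfl, a⟩ := cons.inj a
    have := congrArg ix a
    rw [ix_app] at this
    exact .inr ⟨by simp, (append_eq_nil_iff.1 (this.symm.trans (by simp [ix, filterMap_map]))).2⟩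

def Ds (P : Set (ContextFreeRule (Option (I ⊕ Z)) N)) (A : N) (s : List I) :
    Set (List (ContextFreeRule (Option (I ⊕ Z)) N)) :=
  {μ | ∃ w, LD P [nonterminal A] μ w ∧ none ∈ w ∧ ix w = s}

theorem two [Finite I] {P : Set (ContextFreeRule (Option (I ⊕ Z)) N)} {F : Set N} (hF : F.Finite)
    (hP : ∀ r ∈ P, r.input ∈ F) {n l k : ℕ} (hn : F.ncard ≤ n) (hl : 1 ≤ l)
    (hl' : ∀ r ∈ P, r.output.length ≤ l) (hk : Nat.card I ≤ k) {S : N}
    (sh : ∀ μ w, LD P [nonterminal S] μ w → ∃ s z, w = wd s z ∧ s.length ≤ z.length)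
    (h : ∀ s ≠ [], s.length ≤ 4 ^ (n * (k + 1) ^ (l * l ^ (16 * n))) → (Ds P S s).Nontrivial) :
    ∀ s ≠ [], (Ds P S s).Nontrivial := by
  classical
  let U := fun γ => ∃ x y, ∀ ν t, LD P γ ν t → ∃ μ', LD P [nonterminal S] μ' (x ++ t ++ y) ∧ ν ⊆ μ'
  have u1 : ∀ {α β ι t'}, U (α ++ β) → LD P β ι t' → U α := fun ⟨x, y, a⟩ b =>
    ⟨x, _ ++ y, fun ν t c => (a _ _ (c.app b)).imp fun _ d =>
      ⟨by simpa using d.1, List.Subset.trans (subset_append_left ..) d.2⟩⟩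
  have u2 : ∀ {α β ν t}, U (α ++ β) → LD P α ν t → U β := fun ⟨x, y, a⟩ b =>
    ⟨x ++ _, y, fun ν t c => (a _ _ (b.app c)).imp fun _ d =>
      ⟨by simpa using d.1, List.Subset.trans (subset_append_right ..) d.2⟩⟩
  have u3 : ∀ {r}, r ∈ P → U [nonterminal r.input] → U r.output := fun e ⟨x, y, a⟩ =>
    ⟨x, y, fun ν t c => (a _ _ (.nt e (by rwa [append_nil]))).imp fun _ d =>
      ⟨d.1, List.Subset.trans (subset_cons_self ..) d.2⟩⟩
  have hc : 1 ≤ l ^ (16 * n) := Nat.one_le_pow _ _ hl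
  have b1 : ∀ γ ν t, U γ → LD P γ ν t → none ∉ t → (ix t).length ≤ γ.length * l ^ (16 * n) := fun γ => by
    induction γ with
    | nil => rintro _ _ - ⟨⟩ -; simp [ix]
    | cons X γ ih =>
      intro ν t a b c
      obtain ⟨κ, ι, m, t', rfl, rfl, d, e⟩ := b.split [X] γ rfl
      have := ih _ _ (u2 (α := [X]) a d) e fun f => c (mem_append_right _ f)
      suffices (ix m).length ≤ l ^ (16 * n) by rw [ix_app, length_append, length_cons, add_mul]; omega
      obtain _ | A := X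
      · obtain _ | ⟨_, ⟨⟩⟩ := d
        exact (length_filterMap_le ..).trans hc
      obtain ⟨x, y, f⟩ := u1 (α := [_]) a e
      obtain ⟨μ, f1, f2⟩ := f _ _ d
      have pr : ∀ μ : List (ContextFreeRule (Option (I ⊕ Z)) N), (μ.map fun r =>
          ((1, if r.input = A then 0 else 1) : ℚ × ℚ)).prod = (1, if ∃ r ∈ μ, r.input = A then 0 else 1) :=
        fun μ => by
          induction μ with
          | nil => simp [Prod.ext_iff]
          | cons r μ ih => by_cases q : r.input = A <;> simp [ih, q]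
      obtain ⟨r, -, rfl, _, rfl, -⟩ := ld_nt.1 d
      obtain ⟨μ', w, g1, g2, g3⟩ := short (E := ℚ × ℚ) (by simp) hF hP hn hl hl'
        (fun r' => (1, if r'.input = r.input then 0 else 1)) (fun _ _ => .all ..) (fun _ => 1)
        (LinearMap.fst ℚ ℚ ℚ - LinearMap.snd ℚ ℚ ℚ) f1 (by
          rw [pr, if_pos ⟨r, f2 mem_cons_self, rfl⟩]; simp)
      obtain ⟨r', g4, g5⟩ : ∃ r' ∈ μ', r'.input = r.input := by
        by_contra q
        rw [pr, if_neg q] at g3
        simp at g3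
      obtain ⟨x, y, g6, g7⟩ := g1.ctx g4
      obtain ⟨_, g8⟩ := g7 _ _ (g5 ▸ d)
      obtain ⟨s, z, g9, g10⟩ := sh _ _ g8
      obtain ⟨-, q1, q2⟩ | ⟨q1, q2⟩ := cut g9
      · have := length_filterMap_le (fun x : Option (I ⊕ Z) => x.bind Sum.getLeft?) m
        rw [length_append] at q1
        rw [ix]; omega
      obtain ⟨q3, -⟩ | ⟨-, q3⟩ := cut ((append_assoc ..).symm.trans g9)
      · exact ((mem_append.1 q1).elim q3 fun f => c (mem_append_left _ f)).elim
      · rw [ix_app] at q3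
        simp [(append_eq_nil_iff.1 q3).1]
  have dec : ∀ A p s μ, U [nonterminal A] → l * l ^ (16 * n) < p.length → μ ∈ Ds P A (p ++ s) →
      ∃ r α B β ν t ι p' κ, r.output = α ++ nonterminal B :: β ∧ LD P α ν t ∧ none ∉ t ∧ p = ix t ++ p' ∧
        U [nonterminal B] ∧ μ = r :: (ν ++ κ ++ ι) ∧ κ ∈ Ds P B (p' ++ s) ∧
        ∀ s', ∀ κ' ∈ Ds P B (p' ++ s'), r :: (ν ++ κ' ++ ι) ∈ Ds P A (p ++ s') := by
    rintro A p s _ a b ⟨w, c, d, e⟩
    obtain ⟨r, f1, rfl, μ, rfl, f2⟩ := ld_nt.1 c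
    rw [append_nil] at f2
    obtain ⟨α, X, β, ν, κ, ι, t, m, t', f3, rfl, rfl, f4, f5, f6, f7, f8⟩ := f2.mid d
    have a' := f3 ▸ u3 f1 a
    have g1 := (b1 _ _ _ (u1 a' (f7.app f8)) f6 f4).trans (Nat.mul_le_mul_right _
      (le_trans (by simp [f3]) (hl' r f1)))
    have g2 : ix t' = [] := by
      obtain ⟨x, y, f⟩ := a
      obtain ⟨_, g, -⟩ := f _ _ c
      obtain ⟨s, z, g', -⟩ := sh _ _ g
      obtain ⟨q, -⟩ | ⟨-, q⟩ := cut (x := x ++ t ++ m) (y := t' ++ y) (by simpa using g')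
      · simp [f5] at q
      · exact (append_eq_nil_iff.1 ((ix_app ..).symm.trans q)).1
    rw [ix_app, ix_app, g2, append_nil] at e
    obtain ⟨p', rfl, g3⟩ : ∃ p', p = ix t ++ p' ∧ ix m = p' ++ s := by
      obtain ⟨p', q1, q2⟩ | ⟨p', q1, q2⟩ := append_eq_append_iff.1 e
      · exact ⟨p', q1, q2⟩
      · have := congrArg length q1
        rw [length_append] at this; omega
    obtain _ | B := X
    · obtain _ | ⟨_, ⟨⟩⟩ := f7
      obtain rfl := mem_singleton.1 f5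
      simp [(append_eq_nil_iff.1 g3.symm).1] at b; omega
    refine ⟨r, α, B, β, ν, t, ι, p', κ, f3, f6, f4, rfl, u1 (α := [_]) (u2 a' f6) f8, rfl,
      ⟨m, f7, f5, g3⟩, ?_⟩
    rintro s' κ' ⟨m', q1, q2, q3⟩
    exact ⟨t ++ m' ++ t', .nt f1 (by simpa [f3] using (f6.app q1).app f8), by simp [q2], by
      simp [ix_app, g2, q3]⟩
  let sg := fun s (x : F × {p : List I // p.length ≤ l * l ^ (16 * n)}) =>
    ((Ds P x.1 (x.2 ++ s)).Nonempty, (Ds P x.1 (x.2 ++ s)).Nontrivial)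
  have inF : ∀ {A s μ}, μ ∈ Ds P A s → A ∈ F := fun ⟨_, a, _⟩ => by
    obtain ⟨r, b, rfl, -⟩ := ld_nt.1 a
    exact hP r b
  have r1 : ∀ s s', sg s = sg s' → ∀ μ A p, U [nonterminal A] → μ ∈ Ds P A (p ++ s) →
      (Ds P A (p ++ s')).Nonempty := fun s s' e μ => by
    induction hm : μ.length using Nat.strong_induction_on generalizing μ with | _ m ih
    intro A p a b
    obtain c | c := le_or_gt p.length (l * l ^ (16 * n))
    · exact (congrArg Prod.fst (congrFun e (⟨A, inF b⟩, ⟨p, c⟩))).mp ⟨μ, b⟩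
    obtain ⟨r, α, B, β, ν, t, ι, p', κ, -, -, -, -, d, rfl, f, g⟩ := dec A p s μ a c b
    obtain ⟨κ', q⟩ := ih _ (by simp [← hm]; omega) κ rfl B p' d f
    exact ⟨_, g _ _ q⟩
  have r2 : ∀ s s', sg s = sg s' → ∀ μ A p, U [nonterminal A] → μ ∈ Ds P A (p ++ s) →
      ∀ μ' ∈ Ds P A (p ++ s), μ ≠ μ' → (Ds P A (p ++ s')).Nontrivial := fun s s' e μ => by
    induction hm : μ.length using Nat.strong_induction_on generalizing μ with | _ m ih
    intro A p a b μ' b' ne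
    obtain c | c := le_or_gt p.length (l * l ^ (16 * n))
    · exact (congrArg Prod.snd (congrFun e (⟨A, inF b⟩, ⟨p, c⟩))).mp ⟨μ, b, μ', b', ne⟩
    obtain ⟨r, α, B, β, ν, t, ι, q, κ, d1, d2, d3, d4, d, rfl, f, g⟩ := dec A p s μ a c b
    obtain ⟨r', α', B', β', ν', t', ι', q', κ', d1', d2', d3', d4', d', rfl, f', g'⟩ := dec A p s μ' a c b'
    by_cases eq : r = r' ∧ α = α' ∧ ν = ν' ∧ ι = ι'
    · obtain ⟨rfl, rfl, rfl, rfl⟩ := eq
      obtain ⟨⟨⟩, -⟩ := cons.inj (append_cancel_left (d1.symm.trans d1'))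
      obtain ⟨-, rfl⟩ := d2.det (ν := []) d2' rfl
      obtain rfl := append_cancel_left (d4.symm.trans d4')
      obtain ⟨κ₁, o1, κ₂, o2, o3⟩ := ih _ (by simp [← hm]; omega) κ rfl B q d f κ' f' fun o => ne (by rw [o])
      exact ⟨_, g _ _ o1, _, g _ _ o2, by simpa using o3⟩
    obtain ⟨κ₁, o1⟩ := r1 s s' e κ B q d f
    obtain ⟨κ₂, o2⟩ := r1 s s' e κ' B' q' d' f'
    refine ⟨_, g _ _ o1, _, g' _ _ o2, fun o => eq ?_⟩
    obtain ⟨rfl, o'⟩ := cons.inj o
    obtain ⟨_, o3, o4, -⟩ := o1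
    obtain ⟨_, o5, o6, -⟩ := o2
    obtain ⟨o7, o8, -, o9⟩ := uniq d2 o3 d3 o4 d2' o5 d3' o6 (d1.symm.trans d1') o'
    exact ⟨rfl, o7, o8, o9⟩
  intro s
  induction hm : s.length using Nat.strong_induction_on generalizing s with | _ m ih
  intro ne
  by_contra q
  have lt := lt_of_not_ge fun o => q (h s ne o)
  have := hF.to_subtype
  obtain ⟨_, c⟩ := cardL I (l * l ^ (16 * n))
  have key : ∀ i j, i < j → j < s.length → sg (s.drop i) ≠ sg (s.drop j) := fun i j a b e => by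
    obtain ⟨μ, d, μ', d', f⟩ := ih _ (by simp [← hm]; omega) (s.take i ++ s.drop j) rfl (by simp; omega)
    exact q (take_append_drop i s ▸ r2 _ _ e.symm μ S _ ⟨[], [], fun ν t o => ⟨ν, by simpa using o,
      Subset.refl _⟩⟩ d μ' d' f)
  have := Nat.card_le_card_of_injective (fun i : Fin s.length => sg (s.drop i)) fun i j e => by
    obtain o | o | o := lt_trichotomy i j
    exacts [(key _ _ o j.2 e).elim, o, (key _ _ o i.2 e.symm).elim]
  rw [Nat.card_fun, Nat.card_prod, Nat.card_prod, Nat.card_coe_set_eq] at this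
  refine lt.not_ge ((by simpa using this : s.length ≤ 4 ^ _).trans (Nat.pow_le_pow_right (by norm_num)
    (Nat.mul_le_mul hn (c.trans (Nat.pow_le_pow_left (by omega) _)))))

end Pool.Agent.H.MP_067fd8_lc
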