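import Pool.Agent.H.MP_067fd8_lc.B

set_option autoImplicit false
set_option linter.unusedSimpArgs false
set_option linter.unusedVariables false

/-! Unambiguous grammars for inverse morphic images intersected with regular sets, with size bounds. -/

namespace Pool.Agent.H.MP_067fd8_lc

open List Symbol

def UA {T N : Type} (P : Set (ContextFreeRule T N)) (S : N) (L : Set (List T)) : Prop :=
  (∀ w, w ∈ L ↔ ∃ μ, LD P [nonterminal S] μ w) ∧
    ∀ w μ μ', LD P [nonterminal S] μ w → LD P [nonterminal S] μ' w → μ = μ'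

theorem finL {α : Type} {s : Set α} (hs : s.Finite) (n : ℕ) :
    {l : List α | l.length ≤ n ∧ ∀ x ∈ l, x ∈ s}.Finite :=
  have := hs.to_subtype
  ((finite_length_le s n).image (map Subtype.val)).subset fun l ⟨a, b⟩ =>
    ⟨l.attachWith _ b, by simpa, by simp [attachWith, map_pmap]⟩

inductive Ch {A Q Y : Type} : Q → List Y → Q → List (Symbol A (Option (Q × Y × Q))) → Prop
  | nil (p) : Ch p [] p []
  | cons (p y) {p' α q γ} : Ch p' α q γ → Ch p (y :: α) q (nonterminal (some (p, y, p')) :: γ)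

section
variable {A Q Y : Type}

theorem Ch.app {p q q' : Q} {α β : List Y} {γ δ : List (Symbol A _)} (h : Ch p α q γ) (h' : Ch q β q' δ) :
    Ch p (α ++ β) q' (γ ++ δ) := by
  induction h with
  | nil => exact h'
  | cons _ _ _ ih => exact .cons _ _ (ih h')

theorem Ch.split {q' : Q} {β : List Y} : ∀ {α : List Y} {p} {γ : List (Symbol A _)}, Ch p (α ++ β) q' γ →
    ∃ q γ₁ γ₂, γ = γ₁ ++ γ₂ ∧ Ch p α q γ₁ ∧ Ch q β q' γ₂
  | [], _, _, h => ⟨_, [], _, rfl, .nil _, h⟩
  | _ :: _, _, _, .cons _ _ h => by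
    obtain ⟨_, _, _, rfl, a, b⟩ := h.split
    exact ⟨_, _, _, rfl, .cons _ _ a, b⟩

theorem Ch.len {p q : Q} {α : List Y} {γ : List (Symbol A _)} (h : Ch p α q γ) :
    γ.length = α.length ∧ ∀ x ∈ γ, ∃ p, ∃ y ∈ α, ∃ q, x = nonterminal (some (p, y, q)) := by
  induction h with
  | nil => simp
  | cons _ _ _ ih => exact ⟨by simp [ih.1], forall_mem_cons.2 ⟨⟨_, _, mem_cons_self, _, rfl⟩, fun x a =>
      (ih.2 x a).imp fun _ => Exists.imp fun _ => And.imp_left (mem_cons_of_mem _)⟩⟩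

theorem Ch.det {p p' q : Q} {α : List Y} {γ : List (Symbol A _)} (h : Ch p α q γ) (h' : Ch p' α q γ) :
    p = p' := by
  cases h <;> cases h' <;> rfl
end

variable {A B N σ : Type} (P : Set (ContextFreeRule B N)) (S : N) (f : A → List B) (M : DFA A σ) (H : ℕ)

abbrev St (B σ : Type) (H : ℕ) := σ × {l : List B // l.length ≤ H}

abbrev Nt (B N σ : Type) (H : ℕ) := Option (St B σ H × Option (Symbol B N) × St B σ H)

def p0 : St B σ H := (M.start, ⟨[], Nat.zero_le _⟩)

inductive Rl : Nt B N σ H → List (Symbol A (Nt B N σ H)) → Prop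
  | s {γ} : Ch (p0 M H) [some (nonterminal S), none] (p0 M H) γ → Rl none γ
  | n {r p q γ} : r ∈ P → Ch p (r.output.map some) q γ → Rl (some (p, some (nonterminal r.input), q)) γ
  | t {p q b} : p.2.1 = b :: q.2.1 → q.1 = p.1 → Rl (some (p, some (terminal b), q)) []
  | u {p q b a} : p.2.1 = [] → f a = b :: q.2.1 → q.1 = M.step p.1 a →
      Rl (some (p, some (terminal b), q)) [terminal a]
  | e {p q y a} : p.2.1 = [] → f a = [] → (∀ X, y ≠ some (nonterminal X)) →
      Rl (some (p, y, q)) [terminal a, nonterminal (some ((M.step p.1 a, p.2), y, q))]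
  | z {p q} : p.2.1 = [] → p.1 ∈ M.accept → Rl (some (p, none, q)) []

def Pn : Set (ContextFreeRule A (Nt B N σ H)) := {r | Rl P S f M H r.input r.output}

def sy {Q : Type} : Symbol A (Option (Q × Option (Symbol B N) × Q)) → Option (Symbol B N)
  | nonterminal (some x) => x.2.1
  | _ => none

def pj {Q : Type} (r : ContextFreeRule A (Option (Q × Option (Symbol B N) × Q))) : List (ContextFreeRule B N) :=
  match r.input with
  | some (_, some (nonterminal X), _) => [⟨X, r.output.filterMap sy⟩]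
  | _ => []

variable {P S f M H}

theorem Ch.sy {Q : Type} {q : Q} : ∀ {α : List (Symbol B N)} {p} {γ : List (Symbol A _)},
    Ch p (α.map some) q γ → γ.filterMap sy = α
  | [], _, _, .nil _ => rfl
  | _ :: _, _, _, .cons _ _ h => congrArg _ h.sy

theorem pj_e {Q : Type} {p q : Q} {y : Option (Symbol B N)} (h : ∀ X, y ≠ some (nonterminal X))
    (γ : List (Symbol A _)) : pj ⟨some (p, y, q), γ⟩ = [] := by
  obtain _ | _ | X := y
  exacts [rfl, rfl, (h X rfl).elim]

theorem inv {p q y β γ μ w} (c : Ch p (y :: β) q γ) (d : LD (Pn P S f M H) γ μ w) : ∃ p' γ' o μ',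
    γ = nonterminal (some (p, y, p')) :: γ' ∧ Ch p' β q γ' ∧ μ = ⟨some (p, y, p'), o⟩ :: μ' ∧
      Rl P S f M H (some (p, y, p')) o ∧ LD (Pn P S f M H) (o ++ γ') μ' w := by
  cases c with | cons _ _ c
  obtain ⟨⟨_, o⟩, a, rfl, μ', rfl, b⟩ := ld_nt.1 d
  exact ⟨_, _, o, μ', rfl, c, rfl, a, b⟩

theorem sound {q} : ∀ μ p α γ w, Ch p (map some α ++ [none]) q γ → LD (Pn P S f M H) γ μ w →
    LD P α (μ.flatMap pj) (p.2.1 ++ w.flatMap f) ∧ M.evalFrom p.1 w ∈ M.accept := fun μ => by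
  induction μ with
  | nil => rintro p (_ | _) γ w c d <;> obtain ⟨_, _, _, _, -, -, ⟨⟩, -⟩ := inv c d
  | cons r μ ih =>
    rintro p (_ | ⟨y, α⟩) γ w c d <;> obtain ⟨p', γ', o, _, rfl, c', ⟨⟩, a, b⟩ := inv c d
    · cases c'
      cases a with
      | e a1 a2 a3 =>
        cases b with | ter _ b
        simpa [a1, a2, pj_e a3] using ih _ [] _ _ (.cons _ _ (.nil _)) b
      | z a1 a2 =>
        cases b
        exact ⟨by rw [a1]; exact .nil, a2⟩
    · cases a with
      | e a1 a2 a3 =>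
        cases b with | ter _ b
        simpa [a1, a2, pj_e a3] using ih _ (_ :: α) _ _ (.cons _ _ c') b
      | t a1 a2 =>
        obtain ⟨i, j⟩ := ih _ α _ _ c' b
        exact ⟨by rw [a1]; exact .ter _ i, a2 ▸ j⟩
      | u a1 a2 a3 =>
        cases b with | ter _ b
        obtain ⟨i, j⟩ := ih _ α _ _ c' b
        exact ⟨by rw [a1, flatMap_cons (f := f), a2]; exact .ter _ i, by rwa [a3] at j⟩
      | @n r _ _ _ a1 a2 =>
        obtain ⟨i, j⟩ := ih _ (r.output ++ α) _ _ (by simpa using a2.app c') b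
        exact ⟨by rw [flatMap_cons, pj, a2.sy]; exact .nt a1 i, j⟩

theorem unique {q} : ∀ μ p α γ w, Ch p (map some α ++ [none]) q γ → LD (Pn P S f M H) γ μ w →
    ∀ γ' μ', Ch p (map some α ++ [none]) q γ' → LD (Pn P S f M H) γ' μ' w → μ.flatMap pj = μ'.flatMap pj →
      γ = γ' ∧ μ = μ' := fun μ => by
  induction μ with
  | nil => rintro p (_ | _) γ w c d <;> obtain ⟨_, _, _, _, -, -, ⟨⟩, -⟩ := inv c d
  | cons r μ ih =>
    rintro p (_ | ⟨y, α⟩) γ w c d γ' μ' c' d' e <;> obtain ⟨p₁, γ₁, o, _, rfl, c₁, ⟨⟩, a, b⟩ := inv c d <;>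
      obtain ⟨p₂, γ₂, o', μ', rfl, c₂, rfl, a', b'⟩ := inv c' d'
    · cases c₁; cases c₂
      cases a with
      | e a1 a2 a3 =>
        cases b with | ter _ b
        cases a' with
        | e =>
          cases b' with | ter _ b'
          exact ⟨rfl, congrArg _ (ih _ [] _ _ (.cons _ _ (.nil _)) b _ _ (.cons _ _ (.nil _)) b' e).2⟩
        | z => cases b'
      | z => cases b; cases a' <;> cases b'; exact ⟨rfl, rfl⟩
    · cases a with
      | e a1 a2 a3 =>
        cases b with | ter _ b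
        cases a' with
        | e =>
          cases b' with | ter _ b'
          obtain ⟨⟨⟩, rfl⟩ := ih _ (_ :: α) _ _ (.cons _ _ c₁) b _ _ (.cons _ _ c₂) b' (by
            simpa [pj_e a3] using e)
          exact ⟨rfl, rfl⟩
        | t a4 => cases a1.symm.trans a4
        | u _ a4 => cases b' with | ter => cases a2.symm.trans a4
        | n => exact (a3 _ rfl).elim
      | t a1 a2 =>
        cases a' with
        | e a4 => cases a4.symm.trans a1
        | u a4 => cases a4.symm.trans a1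
        | t a3 a4 =>
          obtain rfl : p₁ = p₂ := Prod.ext (a2.trans a4.symm) (Subtype.ext (cons.inj (a1.symm.trans a3)).2)
          obtain ⟨rfl, rfl⟩ := ih _ α _ _ c₁ b _ _ c₂ b' e
          exact ⟨rfl, rfl⟩
      | u a1 a2 a3 =>
        cases b with | ter _ b
        cases a' with
        | e _ a4 => cases b' with | ter => cases a4.symm.trans a2
        | t a4 => cases a1.symm.trans a4
        | u _ a4 a5 =>
          cases b' with | ter _ b'
          obtain rfl : p₁ = p₂ := Prod.ext (a3.trans a5.symm) (Subtype.ext (cons.inj (a2.symm.trans a4)).2)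
          obtain ⟨rfl, rfl⟩ := ih _ α _ _ c₁ b _ _ c₂ b' e
          exact ⟨rfl, rfl⟩
      | @n r _ _ _ a1 a2 =>
        generalize hX : r.input = X at a' e
        cases a' with
        | e _ _ a3 => exact (a3 _ rfl).elim
        | @n r' _ _ _ a3 a4 =>
          rw [flatMap_cons, flatMap_cons, pj, pj, a2.sy, a4.sy] at e
          obtain ⟨e1, e2⟩ := cons.inj e
          have e3 : r.output = r'.output := congrArg (·.output) e1
          obtain ⟨e4, rfl⟩ := ih _ (r.output ++ α) _ _ (by simpa using a2.app c₁) b _ _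
            (by simpa [e3] using a4.app c₂) b' e2
          obtain ⟨rfl, rfl⟩ := append_inj e4 (by simp [a2.len.1, a4.len.1, e3])
          obtain rfl := c₁.det c₂
          exact ⟨rfl, rfl⟩

theorem complete (hH : ∀ a, (f a).length ≤ H) {q α μ z} (h : LD P α μ z) : ∀ (p : St B σ H) w,
    z = p.2.1 ++ w.flatMap f → M.evalFrom p.1 w ∈ M.accept →
      ∃ γ μ', Ch p (map some α ++ [none]) q γ ∧ LD (Pn P S f M H) γ μ' w := by
  have er : ∀ (p : St B σ H) y β a w, (∀ X, y ≠ some (nonterminal X)) → p.2.1 = [] → f a = [] →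
      (∃ γ μ', Ch (M.step p.1 a, p.2) (y :: β) q γ ∧ LD (Pn P S f M H) γ μ' w) →
      ∃ γ μ', Ch p (y :: β) q γ ∧ LD (Pn P S f M H) γ μ' (a :: w) := by
    rintro p y β a w b c d ⟨_, _, _ | ⟨_, _, e⟩, g⟩
    exact ⟨_, _, .cons _ _ e, .nt (r := ⟨_, _⟩) (.e c d b) (.ter a g)⟩
  induction h with
  | nil =>
    intro p w
    induction w generalizing p with
    | nil => exact fun a b => ⟨_, _, .cons _ _ (.nil _), .nt (r := ⟨_, _⟩) (.z (by simpa using a) b) .nil⟩
    | cons a w ih =>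
      intro b c
      simp only [flatMap_cons, nil_eq, append_eq_nil_iff] at b
      exact er p _ _ a w nofun b.1 b.2.1 (ih _ (by simp [b.1, b.2.2]) c)
  | @ter b α μ z _ ih =>
    rintro ⟨s, _ | ⟨c, l⟩, hl⟩ w
    · induction w generalizing s with
      | nil => nofun
      | cons a w ih' =>
        intro c d
        rw [flatMap_cons] at c
        cases e : f a with
        | nil => exact er _ _ _ a w nofun rfl e (ih' _ (by simpa [e] using c) d)
        | cons b' l =>
          rw [e] at c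
          obtain ⟨rfl, c'⟩ := cons.inj c
          obtain ⟨γ, μ', g1, g2⟩ := ih (M.step s a, ⟨l, by have := hH a; simp [e] at this; omega⟩) w c' d
          exact ⟨_, _, .cons _ _ g1, .nt (r := ⟨_, _⟩) (.u rfl e rfl) (.ter a g2)⟩
    · intro e d
      obtain ⟨rfl, c'⟩ := cons.inj e
      obtain ⟨γ, μ', g1, g2⟩ := ih (s, ⟨l, by simp at hl; omega⟩) w c' d
      exact ⟨_, _, .cons _ _ g1, .nt (r := ⟨_, _⟩) (.t rfl rfl) g2⟩
  | nt a _ ih =>
    intro p w c d
    obtain ⟨γ, μ', g1, g2⟩ := ih p w c d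
    rw [map_append, append_assoc] at g1
    obtain ⟨_, _, _, rfl, g3, g4⟩ := g1.split
    exact ⟨_, _, .cons _ _ g4, .nt (r := ⟨_, _⟩) (.n a g3) g2⟩

theorem clos [Finite A] [Finite B] [Finite σ] (fP : P.Finite) {L} (h : UA P S L) (f : A → List B)
    (M : DFA A σ) {H l : ℕ} (hH : ∀ a, (f a).length ≤ H) (hl : ∀ r ∈ P, r.output.length ≤ l) :
    ∃ (N' : Type) (S' : N') (P' : Set (ContextFreeRule A N')) (F : Set N'), P'.Finite ∧
      UA P' S' {w | w.flatMap f ∈ L ∧ w ∈ M.accepts} ∧ F.Finite ∧ (∀ r ∈ P', r.input ∈ F) ∧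
      F.ncard ≤ (Nat.card σ * (Nat.card B + 1) ^ H) ^ 2 * (Nat.card B + 1 + P.ncard) + 1 ∧
      ∀ r ∈ P', r.output.length ≤ l + 2 := by
  obtain ⟨_, c⟩ := cardL B H
  let G : Set (Option (Symbol B N)) := Set.range (fun o : Option B => o.map terminal) ∪
    (fun r => some (nonterminal r.input)) '' P
  have fG : G.Finite := (Set.finite_range _).union (fP.image _)
  have fN : ∀ G : Set (Option (Symbol B N)), G.Finite →
      (some '' (Set.univ ×ˢ G ×ˢ Set.univ) : Set (Nt B N σ H)).Finite := fun G a =>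
    (Set.finite_univ.prod (a.prod Set.finite_univ)).image _
  have mG : ∀ y, (∀ X, y ≠ some (nonterminal X)) → y ∈ G := by
    rintro (_ | b | X) a
    exacts [.inl ⟨none, rfl⟩, .inl ⟨some b, rfl⟩, (a X rfl).elim]
  have k1 : ∀ r ∈ Pn P S f M H, r.input ∈ insert none (some '' (Set.univ ×ˢ G ×ˢ Set.univ)) := by
    rintro ⟨_, _⟩ (_ | a | _ | _ | ⟨_, _, a⟩ | _)
    exacts [.inl rfl, .inr ⟨_, ⟨trivial, .inr ⟨_, a, rfl⟩, trivial⟩, rfl⟩,
      .inr ⟨_, ⟨trivial, .inl ⟨some _, rfl⟩, trivial⟩, rfl⟩, .inr ⟨_, ⟨trivial, .inl ⟨some _, rfl⟩, trivial⟩, rfl⟩,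
      .inr ⟨_, ⟨trivial, mG _ a, trivial⟩, rfl⟩, .inr ⟨_, ⟨trivial, .inl ⟨none, rfl⟩, trivial⟩, rfl⟩]
  have k2 : ∀ r ∈ Pn P S f M H, r.output.length ≤ l + 2 := by
    rintro ⟨_, _⟩ (a | ⟨b, a⟩ | _ | _ | _ | _)
    exacts [by simp [a.len.1], by have := hl _ b; simp [a.len.1]; omega, by simp, by simp, by simp, by simp]
  have k3 : ∀ {μ w}, LD (Pn P S f M H) [nonterminal none] μ w → ∃ γ μ', μ = ⟨none, γ⟩ :: μ' ∧
      Ch (p0 M H) (map some [nonterminal S] ++ [none]) (p0 M H) γ ∧ LD (Pn P S f M H) γ μ' w := fun a => by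
    obtain ⟨⟨_, γ⟩, b, rfl, μ', rfl, d⟩ := ld_nt.1 a
    cases b with | s b
    exact ⟨γ, μ', rfl, b, by simpa using d⟩
  refine ⟨_, none, Pn P S f M H, _, ?_, ⟨fun w => ⟨fun ⟨a, b⟩ => ?_, fun ⟨μ, a⟩ => ?_⟩, fun w μ μ' a b => ?_⟩,
    (fN G fG).insert _, k1, ?_, k2⟩
  · let G' := insert (some (nonterminal S)) G ∪ ⋃ r ∈ P, {y | y ∈ r.output.map some}
    refine ((((fN G fG).insert none).prod (finL ((Set.finite_range terminal).union ((fN G' ((fG.insert _).union
      (fP.biUnion fun r _ => finite_toSet _))).image nonterminal)) (l + 2))).image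
        fun x => ⟨x.1, x.2⟩).subset fun r a => ⟨(r.input, r.output), ⟨k1 r a, k2 r a, ?_⟩, rfl⟩
    obtain ⟨_, _⟩ := r
    obtain a | ⟨b, a⟩ | _ | _ | ⟨_, _, a⟩ | _ := a
    · intro x d
      obtain ⟨_, y, e, _, rfl⟩ := a.len.2 x d
      refine .inr ⟨_, ⟨_, ⟨trivial, .inl ?_, trivial⟩, rfl⟩, rfl⟩
      obtain rfl | e := mem_cons.1 e
      exacts [.inl rfl, mem_singleton.1 e ▸ .inr (mG _ nofun)]
    · intro x d
      obtain ⟨_, y, e, _, rfl⟩ := a.len.2 x d
      exact .inr ⟨_, ⟨(_, y, _), ⟨trivial, .inr (Set.mem_biUnion b e), trivial⟩, rfl⟩, rfl⟩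
    exacts [nofun, forall_mem_singleton.2 (.inl ⟨_, rfl⟩), forall_mem_cons.2 ⟨.inl ⟨_, rfl⟩,
      forall_mem_singleton.2 (.inr ⟨_, ⟨_, ⟨trivial, .inl (.inr (mG _ a)), trivial⟩, rfl⟩, rfl⟩)⟩, nofun]
  · obtain ⟨μ, d⟩ := (h.1 _).1 a
    obtain ⟨γ, μ', e, g⟩ := complete (S := S) hH (q := p0 M H) d (p0 M H) w rfl b
    exact ⟨_, .nt (r := ⟨_, _⟩) (.s e) (by simpa using g)⟩
  · obtain ⟨γ, μ', -, d, e⟩ := k3 a
    exact (sound _ _ _ _ _ d e).imp_left fun g => (h.1 _).2 ⟨_, g⟩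
  · obtain ⟨γ, μ, rfl, d, e⟩ := k3 a
    obtain ⟨γ', μ', rfl, d', e'⟩ := k3 b
    obtain ⟨rfl, rfl⟩ := unique _ _ _ _ _ d e _ _ d' e'
      (h.2 _ _ _ (sound _ _ _ _ _ d e).1 (sound _ _ _ _ _ d' e').1)
    rfl
  · refine (Set.ncard_insert_le ..).trans (Nat.succ_le_succ ((Set.ncard_image_le
      (Set.finite_univ.prod (fG.prod Set.finite_univ))).trans ?_))
    have g1 : G.ncard ≤ Nat.card B + 1 + P.ncard := (Set.ncard_union_le ..).trans (Nat.add_le_add
      (by rw [← Set.image_univ]; exact (Set.ncard_image_le Set.finite_univ).trans (by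
        simp [Set.ncard_univ, Finite.card_option])) (Set.ncard_image_le fP))
    have g2 : Nat.card (St B σ H) ≤ Nat.card σ * (Nat.card B + 1) ^ H :=
      (Nat.card_prod ..).trans_le (Nat.mul_le_mul_left _ c)
    rw [Set.ncard_prod, Set.ncard_prod, Set.ncard_univ, mul_comm G.ncard, ← mul_assoc, sq]
    exact Nat.mul_le_mul (Nat.mul_le_mul g2 g2) g1

end Pool.Agent.H.MP_067fd8_lc
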