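import Pool.Agent.H.MP_067fd8_lc.C

set_option autoImplicit false
set_option linter.unusedSimpArgs false
set_option linter.unusedVariables false

/-! A finite test on an inverse image of an unambiguous language that excludes correspondence solutions. -/

namespace Pool.Agent.H.MP_067fd8_lc

open List Symbol Kronecker

variable {I Z : Type}

theorem wd_inj {s s' : List I} {z z' : List Z} (h : wd s z = wd s' z') : s = s' ∧ z = z' := by
  obtain rfl : s = s' := by simpa [ix_wd] using congrArg ix h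
  exact ⟨rfl, (List.map_inj_right fun _ _ e => Sum.inr.inj (Option.some.inj e)).1
    (cons.inj (append_cancel_left h)).2⟩

def Sh (I Z : Type) : DFA (Option (I ⊕ Z)) (Option Bool) where
  step | some false, some (.inl _) => some false | some false, none => some true
       | some true, some (.inr _) => some true | _, _ => none
  start := some false
  accept := {some true}

theorem sh_iff (w : List (Option (I ⊕ Z))) : w ∈ (Sh I Z).accepts ↔ ∃ s z, w = wd s z := by
  have k0 : ∀ w, (Sh I Z).evalFrom none w = none := fun w => by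
    induction w with
    | nil => rfl
    | cons a w ih => exact ih
  have k1 : ∀ w, (Sh I Z).evalFrom (some true) w = some true ↔ ∃ z : List Z, w = z.map fun y => some (.inr y) :=
    fun w => by
      induction w with
      | nil => exact ⟨fun _ => ⟨[], rfl⟩, fun _ => rfl⟩
      | cons a w ih =>
        constructor
        · obtain _ | _ | y := a
          exacts [fun h => (by cases (k0 w).symm.trans h), fun h => (by cases (k0 w).symm.trans h),
            fun h => (ih.1 h).elim fun z e => ⟨y :: z, congrArg _ e⟩]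
        · rintro ⟨_ | ⟨y, z⟩, ⟨⟩⟩
          exact ih.2 ⟨z, rfl⟩
  change (Sh I Z).evalFrom (some false) w = some true ↔ _
  induction w with
  | nil => exact ⟨nofun, by rintro ⟨_ | _, _, ⟨⟩⟩⟩
  | cons a w ih =>
    constructor
    · obtain _ | i | _ := a
      exacts [fun h => ((k1 w).1 h).elim fun z e => ⟨[], z, congrArg _ e⟩, fun h => (ih.1 h).elim
        fun s ⟨z, e⟩ => ⟨i :: s, z, congrArg _ e⟩, fun h => by cases (k0 w).symm.trans h]
    · rintro ⟨_ | ⟨i, s⟩, z, ⟨⟩⟩
      exacts [(k1 _).2 ⟨z, rfl⟩, ih.2 ⟨s, z, rfl⟩]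

theorem mat [Finite Z] (u v : I → List Z) : ∃ (ρ : Option (I ⊕ Z) → Matrix (Fin 2 × Fin 2) (Fin 2 × Fin 2) ℚ),
    ∀ s z, ((wd s z).map ρ).prod (1, 1) (0, 0) = 0 ↔
      z = (s.flatMap u).reverse ∨ z = (s.flatMap v).reverse := by
  obtain ⟨j, ⟨e⟩⟩ := Finite.exists_equiv_fin Z
  let vl := fun z : List Z => z.foldr (fun y x => (e y).val + 1 + (j + 1) * x) 0
  have inj : ∀ z z', vl z = vl z' → z = z' := fun z => by
    induction z with
    | nil => rintro (_ | _) h; exacts [rfl, by simp [vl] at h; omega]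
    | cons y z ih =>
      rintro (_ | ⟨y', z'⟩) h
      · simp [vl] at h
      have h' : (e y).val + 1 + (j + 1) * vl z = (e y').val + 1 + (j + 1) * vl z' := h
      have := congrArg (· % (j + 1)) h'
      simp only [Nat.add_mul_mod_self_left] at this
      rw [Nat.mod_eq_of_lt (by have := (e y).2; omega), Nat.mod_eq_of_lt (by have := (e y').2; omega)] at this
      rw [this] at h'
      rw [e.injective (Fin.ext (Nat.succ.inj this)), ih z' (by simpa using h')]
  let up := fun y => (!![j + 1, 0; (e y).val + 1, 1] : Matrix (Fin 2) (Fin 2) ℚ)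
  let dn := fun y => (!![1 / (j + 1), 0; -((e y).val + 1) / (j + 1), 1] : Matrix (Fin 2) (Fin 2) ℚ)
  have k1 : ∀ t : List Z, (t.map up).prod = !![(j + 1 : ℚ) ^ t.length, 0; (vl t.reverse : ℚ), 1] := fun t => by
    induction t using reverseRecOn with
    | nil => simp [vl, Matrix.one_fin_two]
    | append_singleton t y ih =>
      rw [map_append, prod_append, ih]
      simp [up, vl, pow_succ]; ring
  have k2 : ∀ z : List Z, (z.map dn).prod =
      !![1 / (j + 1 : ℚ) ^ z.length, 0; -(vl z : ℚ) / (j + 1) ^ z.length, 1] := fun z => by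
    induction z with
    | nil => simp [vl, Matrix.one_fin_two]
    | cons y z ih =>
      rw [map_cons, prod_cons, ih]
      simp [dn, vl, pow_succ]; field_simp; ring
  let ρ := fun (u : I → List Z) (x : Option (I ⊕ Z)) => x.elim 1 (Sum.elim (fun i => ((u i).map up).prod) dn)
  have k3 : ∀ (u : I → List Z) s z, ((wd s z).map (ρ u)).prod 1 0 = 0 ↔ z = (s.flatMap u).reverse := fun u s z => by
    have : (s.map fun i => ((u i).map up).prod).prod = ((s.flatMap u).map up).prod := by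
      induction s with
      | nil => rfl
      | cons i s ih => rw [map_cons, prod_cons, ih, flatMap_cons, map_append, prod_append]
    simp only [wd, map_append, map_cons, map_map, prod_append, prod_cons, Function.comp_def, ρ, Option.elim,
      Sum.elim_inl, Sum.elim_inr, one_mul, this]
    rw [k1, k2, Matrix.mul_fin_two]
    simp only [Matrix.of_apply, Matrix.cons_val', Matrix.cons_val_zero, Matrix.cons_val_one,
      Matrix.cons_val_fin_one]
    refine ⟨fun h => inj _ _ (Nat.cast_injective (R := ℚ) ?_), fun h => by rw [h]; ring⟩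
    field_simp at h
    linarith
  refine ⟨fun x => ρ u x ⊗ₖ ρ v x, fun s z => ?_⟩
  rw [← k3, ← k3, ← mul_eq_zero]
  generalize wd s z = w
  suffices (w.map fun x => ρ u x ⊗ₖ ρ v x).prod = (w.map (ρ u)).prod ⊗ₖ (w.map (ρ v)).prod by rw [this]; rfl
  induction w with
  | nil => simp
  | cons a w ih => simp [ih, Matrix.mul_kronecker_mul]

def bd (g b l k m H : ℕ) : ℕ := (l + 2) ^ (16 * ((m * 3 * b ^ H) ^ 2 * g + 1)) +
  4 ^ (((m * 3 * b ^ H) ^ 2 * g + 1) * (k + 1) ^ ((l + 2) * (l + 2) ^ (16 * ((m * 3 * b ^ H) ^ 2 * g + 1))))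

theorem nosol {B N σ : Type} [Finite I] [Finite Z] [Finite B] [Finite σ] {P : Set (ContextFreeRule B N)}
    (fP : P.Finite) {S L} (h : UA P S L) {l : ℕ} (hl : ∀ r ∈ P, r.output.length ≤ l)
    (f : Option (I ⊕ Z) → List B) (M : DFA (Option (I ⊕ Z)) σ) {H : ℕ} (hH : ∀ a, (f a).length ≤ H)
    (u v : I → List Z) (hu : ∀ i, u i ≠ []) (hv : ∀ i, v i ≠ []) {W : ℕ}
    (hW : bd (Nat.card B + 1 + P.ncard) (Nat.card B + 1) l (Nat.card I) (Nat.card σ) H ≤ W)
    (a : ∀ s z, s.length ≤ W → z.length ≤ W → (wd s z).flatMap f ∈ L ∧ wd s z ∈ M.accepts →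
      z = (s.flatMap u).reverse ∨ z = (s.flatMap v).reverse)
    (b : ∀ s ≠ [], s.length ≤ W → s.flatMap u ≠ s.flatMap v ∧ ∀ z, z = (s.flatMap u).reverse ∨
      z = (s.flatMap v).reverse → (wd s z).flatMap f ∈ L ∧ wd s z ∈ M.accepts) :
    ∀ s ≠ [], s.flatMap u ≠ s.flatMap v := by
  obtain ⟨N', S', P', F, -, ⟨c1, c2⟩, c3, c4, c5, c6⟩ := clos fP h f (M.inter (Sh I Z)) hH hl
  rw [Nat.card_prod, show Nat.card (Option Bool) = 3 by simp] at c5
  simp only [DFA.accepts_inter, Set.mem_setOf_eq, Language.mem_inf, sh_iff] at c1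
  obtain ⟨ρ, hρ⟩ := mat u v
  have k1 : ∀ μ w, LD P' [nonterminal S'] μ w → ∃ s z, w = wd s z ∧
      (z = (s.flatMap u).reverse ∨ z = (s.flatMap v).reverse) := fun μ w d => by
    obtain ⟨-, -, s, z, rfl⟩ := (c1 w).2 ⟨μ, d⟩
    refine ⟨s, z, rfl, (hρ s z).1 (by_contra fun e => ?_)⟩
    obtain ⟨μ', w', d1, d2, d3⟩ := short (by simp [Module.finrank_matrix]) c3 c4 c5 (by omega) c6 (fun _ => 1)
      (fun _ _ => .one_left _) ρ (Matrix.entryLinearMap ℚ ℚ (1, 1) (0, 0)) d (by simpa using e)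
    obtain ⟨e1, e2, s, z, rfl⟩ := (c1 w').2 ⟨μ', d1⟩
    have := d2.trans ((Nat.le_add_right ..).trans hW)
    simp only [wd, length_append, length_cons, length_map] at this
    exact d3 (by simpa using (hρ s z).2 (a s z (by omega) (by omega) ⟨e1, e2⟩))
  have k2 : ∀ (u : I → List Z), (∀ i, u i ≠ []) → ∀ s : List I, s.length ≤ (s.flatMap u).reverse.length :=
    fun u hu s => by
      induction s with
      | nil => simp
      | cons i s ih => have := length_pos_iff.2 (hu i); simp at ih ⊢; omega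
  intro s ne e
  obtain ⟨μ, ⟨w, d1, -, d2⟩, μ', ⟨w', d3, -, d4⟩, d5⟩ := two c3 c4 c5 (by omega) c6 le_rfl (S := S')
    (fun μ w d => by
      obtain ⟨s, z, rfl, rfl | rfl⟩ := k1 μ w d
      exacts [⟨s, _, rfl, k2 u hu s⟩, ⟨s, _, rfl, k2 v hv s⟩])
    (fun s ne le => by
      obtain ⟨b1, b2⟩ := b s ne (le.trans ((Nat.le_add_left ..).trans hW))
      obtain ⟨μ, d⟩ := (c1 _).1 ⟨(b2 _ (.inl rfl)).1, (b2 _ (.inl rfl)).2, _, _, rfl⟩
      obtain ⟨μ', d'⟩ := (c1 _).1 ⟨(b2 _ (.inr rfl)).1, (b2 _ (.inr rfl)).2, _, _, rfl⟩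
      exact ⟨μ, ⟨_, d, by simp [wd], ix_wd ..⟩, μ', ⟨_, d', by simp [wd], ix_wd ..⟩, fun e =>
        b1 (reverse_injective (wd_inj (d.det (ν := []) (ν' := []) d' (by rw [e])).2).2)⟩) s ne
  obtain ⟨s₁, z, rfl, g⟩ := k1 _ _ d1
  obtain ⟨s₂, z', rfl, g'⟩ := k1 _ _ d3
  rw [ix_wd] at d2 d4
  subst d2 d4
  rw [← e, or_self] at g g'
  subst g g'
  exact d5 (c2 _ _ _ d1 d3)

theorem pcp [Finite I] (u : Bool → I → List Z) (h : ∀ s ≠ [], s.flatMap (u true) ≠ s.flatMap (u false)) :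
    ∃ P : Set (ContextFreeRule (Option (I ⊕ Z)) (Option Bool)), P.Finite ∧
      UA P none {w | ∃ s ≠ [], ∃ b, w = wd s (s.flatMap (u b)).reverse} := by
  let R := fun b i => (terminal (some (.inl i)) :: nonterminal (some b) ::
    ((u b i).reverse.map fun y => some (.inr y)).map terminal : List (Symbol (Option (I ⊕ Z)) (Option Bool)))
  let P : Set (ContextFreeRule (Option (I ⊕ Z)) (Option Bool)) :=
    Set.range (fun x : Bool × Bool × I => ⟨if x.1 then none else some x.2.1, R x.2.1 x.2.2⟩) ∪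
      Set.range fun b => ⟨some b, [terminal none]⟩
  let D := fun b (s : List I) => (s.map fun i => ⟨some b, R b i⟩) ++
    [(⟨some b, [terminal none]⟩ : ContextFreeRule (Option (I ⊕ Z)) (Option Bool))]
  have wc : ∀ b i s, wd (i :: s) ((i :: s).flatMap (u b)).reverse = some (.inl i) ::
      (wd s (s.flatMap (u b)).reverse ++ (u b i).reverse.map fun y => some (.inr y)) := by simp [wd]
  have k0 : ∀ b i μ w, LD P (R b i ++ []) μ w ↔ ∃ w', LD P [nonterminal (some b)] μ w' ∧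
      w = some (.inl i) :: (w' ++ (u b i).reverse.map fun y => some (.inr y)) := fun b i μ w => by
    constructor
    · rintro (_ | ⟨_, a⟩)
      obtain ⟨_, _, _, _, rfl, rfl, c, d⟩ := a.split [_] _ rfl
      obtain ⟨_, rfl, ⟨⟩⟩ := ld_ters.1 d
      exact ⟨_, by simpa using c, by simp⟩
    · rintro ⟨w', a, rfl⟩
      exact .ter _ (by
        simpa using a.app ((ld_ters (x := (u b i).reverse.map fun y => some (.inr y))).2 ⟨_, rfl, .nil⟩))
  have k1 : ∀ b μ w, LD P [nonterminal (some b)] μ w → ∃ s, μ = D b s ∧ w = wd s (s.flatMap (u b)).reverse :=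
    fun b μ => by
      induction μ with
      | nil => intro _ a; obtain ⟨_, -, -, _, ⟨⟩, -⟩ := ld_nt.1 a
      | cons r μ ih =>
        intro w a
        obtain ⟨_, ⟨⟨_ | _, _, i⟩, rfl⟩ | ⟨_, rfl⟩, ⟨⟩, _, ⟨⟩, c⟩ := ld_nt.1 a
        · obtain ⟨w', d, rfl⟩ := (k0 ..).1 c
          obtain ⟨s, rfl, rfl⟩ := ih _ d
          exact ⟨i :: s, rfl, (wc ..).symm⟩
        · obtain _ | ⟨_, ⟨⟩⟩ := c
          exact ⟨[], rfl, rfl⟩
  have k2 : ∀ b s, LD P [nonterminal (some b)] (D b s) (wd s (s.flatMap (u b)).reverse) := fun b s => by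
    induction s with
    | nil => exact .nt (r := ⟨_, _⟩) (.inr ⟨b, rfl⟩) (.ter _ .nil)
    | cons i s ih => exact .nt (r := ⟨_, _⟩) (.inl ⟨(false, b, i), rfl⟩) ((k0 ..).2 ⟨_, ih, wc ..⟩)
  have k3 : ∀ μ w, LD P [nonterminal none] μ w → ∃ b i s, μ = ⟨none, R b i⟩ :: D b s ∧
      w = wd (i :: s) ((i :: s).flatMap (u b)).reverse := fun μ w a => by
    obtain ⟨_, ⟨⟨_ | _, b, i⟩, rfl⟩ | ⟨_, rfl⟩, ⟨⟩, _, rfl, c⟩ := ld_nt.1 a
    obtain ⟨w', d, rfl⟩ := (k0 ..).1 c
    obtain ⟨s, rfl, rfl⟩ := k1 _ _ _ d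
    exact ⟨b, i, s, rfl, (wc ..).symm⟩
  refine ⟨P, (Set.finite_range _).union (Set.finite_range _), fun w => ⟨?_, fun ⟨μ, a⟩ => ?_⟩,
    fun w μ μ' a a' => ?_⟩
  · rintro ⟨_ | ⟨i, s⟩, a, b, rfl⟩
    exacts [(a rfl).elim, ⟨_, .nt (r := ⟨_, _⟩) (.inl ⟨(true, b, i), rfl⟩) ((k0 ..).2 ⟨_, k2 b s, wc ..⟩)⟩]
  · obtain ⟨b, i, s, -, rfl⟩ := k3 _ _ a
    exact ⟨_, cons_ne_nil _ _, b, rfl⟩
  · obtain ⟨b, i, s, rfl, rfl⟩ := k3 _ _ a
    obtain ⟨b', i', s', rfl, e⟩ := k3 _ _ a'
    obtain ⟨⟨⟩, e'⟩ := wd_inj e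
    have := reverse_injective e'
    obtain rfl : b = b' := by
      cases b <;> cases b'
      exacts [rfl, (h _ (cons_ne_nil _ _) this.symm).elim, (h _ (cons_ne_nil _ _) this).elim, rfl]
    rfl

end Pool.Agent.H.MP_067fd8_lc
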