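import Pool.Agent.H.MP_067fd8_lc.D
import Pool.Agent.H.MP_d7c5de_lc.PCP
import Pool.Agent.H.MP_a569f2_lc.A
import Pool.Agent.Lib.helper21.RE

set_option autoImplicit false
set_option linter.unusedSimpArgs false
set_option linter.unusedVariables false

/-! No unambiguous language generates all unambiguous languages: otherwise correspondence is decidable. -/

namespace Pool.Agent.H.MP_067fd8_lc

open List Symbol Pool.Agent.Lib.helper21 PR CFG MP_a569f2_lc

attribute [local irreducible] Primrec Computable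

theorem ld_gen {T N : Type} {P : Set (ContextFreeRule T N)} {α w} : (∃ μ, LD P α μ w) ↔ Gen P α w := by
  refine ⟨fun h => h.elim fun _ h' => ?_, fun h => ?_⟩
  · clear h
    induction h' with
    | nil => exact .nil
    | ter a _ ih => exact .ter a ih
    | nt a _ ih => obtain ⟨_, _, rfl, b, c⟩ := ih.split; exact .nt a b c
  · induction h with
    | nil => exact ⟨_, .nil⟩
    | ter a _ ih => exact ih.imp fun _ => .ter a
    | nt a _ _ ih ih' => exact ih.elim fun _ b => ih'.elim fun _ c => ⟨_, .nt a (b.app c)⟩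

noncomputable abbrev pc (α : Type) [Finite α] : Primcodable α := .ofEquiv _ (Finite.equivFin α)

theorem cf_prim {T : Type} [Finite T] [Primcodable T] {K : Language T} (h : K.IsContextFree) :
    PP fun w => w ∈ K := by
  classical
  obtain ⟨Γ, _, D, I, fD, fI, h⟩ := rt h
  let _ := pc Γ
  let st := fun (cs : List (List Γ)) (a : T) => cs.flatMap fun c => fD.toFinset.toList.flatMap fun x =>
    if c.head? = some x.1 ∧ x.2.1 = a then [x.2.2 ++ c.tail] else []
  have k : ∀ w cs, [] ∈ foldl st cs w ↔ ∃ δ ∈ cs, Rt D δ w := fun w => by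
    induction w with
    | nil => exact fun cs => ⟨fun a => ⟨_, a, .nil⟩, by rintro ⟨_, a, ⟨⟩⟩; exact a⟩
    | cons a w ih =>
      intro cs
      simp only [foldl_cons, ih, st, mem_flatMap, Finset.mem_toList, Set.Finite.mem_toFinset, mem_ite_nil_right,
        mem_singleton]
      constructor
      · rintro ⟨_, ⟨_ | ⟨γ, c⟩, b, ⟨_, _, δ⟩, d, ⟨⟨⟩, rfl⟩, rfl⟩, e⟩
        exact ⟨_, b, .cons d e⟩
      · rintro ⟨_, b, _ | ⟨d, e⟩⟩
        exact ⟨_, ⟨_, b, _, d, ⟨rfl, rfl⟩, rfl⟩, e⟩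
  refine .mk (.of_eq (f := fun w => cd ([] ∈ foldl st fI.toFinset.toList w)) (by unfold st; fun_prop) fun w => ?_)
  simp [k, h]

@[fun_prop] theorem p_words {α β : Type} [Primcodable α] [Primcodable β] [Finite β] {P : α → List β → Prop}
    {m : α → ℕ} (hP : Primrec fun p : α × List β => cd (P p.1 p.2)) (hm : Primrec m) :
    Primrec fun a => cd (∀ s : List β, s.length ≤ m a → P a s) := by
  have := Fintype.ofFinite β
  let ws := fun W : ℕ => (W.rec [[]] fun _ L => [] :: Finset.univ.toList.flatMap fun a => L.map (a :: ·) :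
    List (List β))
  have k : ∀ W s, s ∈ ws W ↔ s.length ≤ W := fun W => by
    induction W with
    | zero => simp [ws]
    | succ W ih => rintro (_ | _) <;> simp [ws] <;> exact ih _
  have : PP fun p : α × List β => P p.1 p.2 := .mk hP
  exact .of_eq (f := fun a => cd (∀ s ∈ ws (m a), P a s)) (by unfold ws; fun_prop) fun a => by simp [k]

theorem undec : ∃ (I Z : Type) (_ : Finite I) (_ : Finite Z) (_ : Primcodable I) (_ : Primcodable Z)
    (u : I → List Z) (v : ℕ → I → List Z), (∀ i, u i ≠ []) ∧ (∀ n i, v n i ≠ []) ∧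
    (Primrec fun p : ℕ × I => v p.1 p.2) ∧ ¬ ComputablePred fun n => ∃ s ≠ [], s.flatMap u = s.flatMap (v n) := by
  classical
  obtain ⟨Q, S, _, _, δ, q₀, a, z, h1, h2⟩ := Queue.exists_qa
  let _ := pc (MP_d7c5de_lc.A Q S Unit)
  let _ := pc (MP_d7c5de_lc.B Q S)
  refine ⟨MP_d7c5de_lc.A Q S Unit, _, inferInstance, inferInstance, inferInstance, inferInstance,
    MP_d7c5de_lc.hh, fun n => MP_d7c5de_lc.gg δ q₀ (replicate n a ++ [z]), by rintro (_ | _ | _ | _) <;> nofun,
    fun n => ?_, ?_, fun h => h2 (h.of_eq fun n => MP_d7c5de_lc.sol_iff δ q₀ _ (h1 n))⟩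
  · rintro (_ | _ | _ | _) <;> simp [MP_d7c5de_lc.gg, MP_d7c5de_lc.R]
  have := Primrec.dom_finite (MP_d7c5de_lc.gg (J := Unit) δ q₀ [])
  refine .of_eq (f := fun p => if p.2 = .start then [.star, .hash, .star, .hd (some q₀), .star] ++
    (replicate p.1 [.sym a, .star]).flatten ++ [.sym z, .star] else MP_d7c5de_lc.gg δ q₀ [] p.2)
    (by fun_prop) ?_
  rintro ⟨n, _ | _ | _ | _⟩ <;> simp [MP_d7c5de_lc.gg, MP_d7c5de_lc.R, flatMap_replicate]

abbrev Cd (B : Type) := List (List B × List ℕ) × ℕ × ℕ × ℕ × List ℕ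

theorem main {B N : Type} [Finite B] {P : Set (ContextFreeRule B N)} (fP : P.Finite) {S L} (h : UA P S L) :
    ∃ (A : Type) (_ : Finite A) (N' : Type) (S' : N') (P' : Set (ContextFreeRule A N')) (L' : Set (List A)),
      P'.Finite ∧ UA P' S' L' ∧ ∀ (f : A → List B) (σ : Type) (_ : Finite σ) (M : DFA A σ),
        ¬ ∀ w, w ∈ L' ↔ w.flatMap f ∈ L ∧ w ∈ M.accepts := by
  classical
  by_contra! hc
  obtain ⟨I, Z, _, _, _, _, u, v, hu, hv, pv, un⟩ := undec
  let _ := pc B
  have pL : PP fun w => w ∈ L := cf_prim (K := L) ⟨⟨N, S, fP.toFinset⟩, Language.ext fun w => by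
    rw [mem_language_iff_gen, Set.Finite.coe_toFinset, ← ld_gen]; exact (h.1 w).symm⟩
  obtain ⟨l, hl⟩ := (fP.image (·.output.length)).bddAbove
  obtain ⟨_, ⟨e⟩⟩ := Finite.exists_equiv_fin (Option (I ⊕ Z))
  obtain ⟨en, pe, hen⟩ : ∃ en : _ → ℕ, Primrec en ∧ ∀ a, en a = e a := ⟨_, .dom_finite _, fun _ => rfl⟩
  have pu := Primrec.dom_finite u
  have p1 := Primrec.dom_finite fun i : I => (some (.inl i) : Option (I ⊕ Z))
  have p2 := Primrec.dom_finite fun i : Z => (some (.inr i) : Option (I ⊕ Z))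
  let f := fun (c : Cd B) a => (c.1.getD (en a) ([], [])).1.take c.2.1
  let d := fun (c : Cd B) q a => (c.1.getD (en a) ([], [])).2.getD q 0 % (c.2.2.1 + 1)
  let K := fun (c : Cd B) w => flatMap (f c) w ∈ L ∧ foldl (d c) (c.2.2.2.1 % (c.2.2.1 + 1)) w ∈ c.2.2.2.2
  let W := fun c : Cd B => bd (Nat.card B + 1 + P.ncard) (Nat.card B + 1) l (Nat.card I) (c.2.2.1 + 1) c.2.1
  have pK : PP fun p : Cd B × List (Option (I ⊕ Z)) => K p.1 p.2 :=
    .mk (p_dand (pp_cd (pp_comp pL (by unfold f; fun_prop))) (by unfold d; fun_prop))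
  have pW : Primrec W := by unfold W bd; fun_prop
  have pw : Primrec fun p : List I × List Z => wd p.1 p.2 :=
    p_append (p_map (p1.comp .snd) .fst) (p_cons (.const _) (p_map (p2.comp .snd) .snd))
  let Ck := fun n (c : Cd B) => (∀ s : List I, s.length ≤ W c → ∀ z : List Z, z.length ≤ W c → K c (wd s z) →
    z = (s.flatMap u).reverse ∨ z = (s.flatMap (v n)).reverse) ∧ ∀ s : List I, s.length ≤ W c → s ≠ [] →
      s.flatMap u ≠ s.flatMap (v n) ∧ K c (wd s (s.flatMap u).reverse) ∧ K c (wd s (s.flatMap (v n)).reverse)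
  refine un (ComputablePred.computable_iff_re_compl_re'.2 ⟨re_ex (by fun_prop),
    (re_ex (R := Ck) (by unfold Ck; fun_prop)).of_eq fun n => ⟨?_, fun a => ?_⟩⟩)
  · rintro ⟨c, a, b⟩ ⟨s, ne, es⟩
    let M : DFA (Option (I ⊕ Z)) (Fin (c.2.2.1 + 1)) := ⟨fun q a => ⟨d c q a, Nat.mod_lt _ (Nat.succ_pos _)⟩,
      ⟨c.2.2.2.1 % _, Nat.mod_lt _ (Nat.succ_pos _)⟩, {q | q.val ∈ c.2.2.2.2}⟩
    have k : ∀ w q, (M.evalFrom q w).val = foldl (d c) q w := fun w => by
      induction w with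
      | nil => exact fun _ => rfl
      | cons a w ih => exact fun q => ih _
    have k' : ∀ w, flatMap (f c) w ∈ L ∧ w ∈ M.accepts ↔ K c w := fun w =>
      and_congr_right fun _ => by rw [← k w M.start]; rfl
    refine nosol fP h (fun r a => hl ⟨r, a, rfl⟩) (f c) M (fun _ => length_take_le ..) u (v n) hu (hv n)
      (W := W c) (by simp [W]) (fun s z i j g => a s i z j ((k' _).1 g)) (fun s i j => ⟨(b s j i).1, ?_⟩) s ne es
    rintro _ (rfl | rfl) <;> rw [k']
    exacts [(b s j i).2.1, (b s j i).2.2]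
  · obtain ⟨P', a1, a2⟩ := pcp (fun b => cond b u (v n)) fun s i j => a ⟨s, i, j⟩
    obtain ⟨g, σ, _, M, hM⟩ := hc _ inferInstance _ _ _ _ a1 a2
    obtain ⟨H, hH⟩ := (Set.finite_range fun a => (g a).length).bddAbove
    obtain ⟨_ | m, ⟨e'⟩⟩ := Finite.exists_equiv_fin σ
    · exact (e' M.start).elim0
    let c : Cd B := (ofFn fun i => (g (e.symm i), ofFn fun q => (e' (M.step (e'.symm q) (e.symm i))).val), H, m,
      e' M.start, ((finRange (m + 1)).filter fun q => e'.symm q ∈ M.accept).map (·.val))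
    have k : ∀ w q, foldl (d c) (e' q).val w = (e' (M.evalFrom q w)).val := fun w => by
      induction w with
      | nil => exact fun _ => rfl
      | cons a w ih =>
        intro q
        rw [foldl_cons, DFA.evalFrom_cons, ← ih]
        congr 1
        simp [-ofFn_succ, d, c, hen, Nat.mod_eq_of_lt (e' _).2, Nat.le_of_lt_succ (e' _).2]
    have k' : ∀ w, K c w ↔ ∃ s ≠ [], ∃ b, w = wd s (s.flatMap (cond b u (v n))).reverse := fun w => by
      refine .trans (and_congr ?_ ?_) (hM w).symm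
      · rw [show f c = g from funext fun a => by simpa [-ofFn_succ, f, c, hen] using hH ⟨a, rfl⟩]
      · rw [show c.2.2.2.1 % (c.2.2.1 + 1) = e' M.start from Nat.mod_eq_of_lt (e' _).2, k]
        simp [c, Fin.val_inj, DFA.mem_accepts, DFA.eval]
    refine ⟨c, fun s _ z _ i => ?_, fun s _ i => ⟨fun j => a ⟨s, i, j⟩, (k' _).2 ⟨s, i, true, rfl⟩,
      (k' _).2 ⟨s, i, false, rfl⟩⟩⟩
    obtain ⟨s', -, b, j⟩ := (k' _).1 i
    obtain ⟨rfl, rfl⟩ := wd_inj j
    cases b
    exacts [.inr rfl, .inl rfl]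

end Pool.Agent.H.MP_067fd8_lc
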